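import Mathlib
import Pool.Agent.H30.Sigma

set_option autoImplicit false

namespace Pool.Agent.Results.MP_b12a75_gt.Irres

open Set Filter Topology

/-- Functionally closed sets. -/
def FClosed {X : Type} [TopologicalSpace X] (A : Set X) : Prop :=
  ∃ f : X → unitInterval, Continuous f ∧ A = f ⁻¹' {0}

/-- Sets of the first functionally additive class. -/
def FSigma {X : Type} [TopologicalSpace X] (A : Set X) : Prop :=
  ∃ Z : ℕ → Set X, (∀ n, FClosed (Z n)) ∧ A = ⋃ n, Z n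

/-- The first functional Lebesgue class. -/
def K1 {X : Type} [TopologicalSpace X] (f : X → ℝ) : Prop := ∀ V : Set ℝ, IsOpen V → FSigma (f ⁻¹' V)

/-- Bounded functions. -/
def Bdd {X : Type} (f : X → ℝ) : Prop := ∃ C, ∀ x, |f x| ≤ C

/-- `K_1`-embedded subsets. -/
def K1Emb {X : Type} [TopologicalSpace X] (E : Set X) : Prop :=
  ∀ f : E → ℝ, K1 f → ∃ g : X → ℝ, K1 g ∧ ∀ x : E, g x = f x

/-- `K_1^*`-embedded subsets. -/
def K1StarEmb {X : Type} [TopologicalSpace X] (E : Set X) : Prop :=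
  ∀ f : E → ℝ, K1 f → Bdd f → ∃ g : X → ℝ, K1 g ∧ Bdd g ∧ ∀ x : E, g x = f x

section general
variable {X : Type} [TopologicalSpace X]

lemma FClosed.isClosed {A : Set X} (h : FClosed A) : IsClosed A := by
  obtain ⟨f, hf, rfl⟩ := h
  exact isClosed_singleton.preimage hf

lemma FClosed.iInter {C : ℕ → Set X} (hC : ∀ n, FClosed (C n)) : FClosed (⋂ n, C n) := by
  choose f h1 h2 using hC
  have hg : Continuous fun x n => f n x := continuous_pi h1
  letI := TopologicalSpace.metrizableSpaceMetric (ℕ → unitInterval)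
  refine ⟨fun x => ⟨min (dist (fun n => f n x) 0) 1, le_min dist_nonneg zero_le_one, min_le_right _ _⟩,
    Continuous.subtype_mk ((hg.dist continuous_const).min continuous_const) _, ?_⟩
  ext x
  have : min (dist (fun n => f n x) 0) 1 = 0 ↔ ∀ n, f n x = 0 := by
    rw [min_eq_iff, dist_eq_zero, funext_iff]
    exact ⟨fun h => (h.resolve_right (by simp)).1, fun h => Or.inl ⟨h, by
      rw [funext h]; exact (dist_self _).le.trans zero_le_one⟩⟩
  simp only [h2, mem_iInter, mem_preimage, mem_singleton_iff, Subtype.ext_iff (p := (· ∈ unitInterval))]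
  exact (this.trans (by simp only [Subtype.ext_iff (p := (· ∈ unitInterval))])).symm

lemma clopen_f {C : Set X} (hC : IsClopen C) : FClosed C := by
  classical
  exact ⟨fun x => if x ∈ C then 0 else 1, Continuous.if (by simp [hC.frontier_eq]) continuous_const
    continuous_const, by ext x; simp⟩

lemma FClosed.sigma {A : Set X} (h : FClosed A) : FSigma A := ⟨fun _ => A, fun _ => h, (iUnion_const _).symm⟩

lemma FSigma.iUnion {ι : Type} [Countable ι] {A : ι → Set X} (h : ∀ i, FSigma (A i)) :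
    FSigma (⋃ i, A i) := by
  rcases isEmpty_or_nonempty ι with _ | _
  · simpa using (clopen_f isClopen_empty).sigma
  choose Z h1 h2 using h
  obtain ⟨e, he⟩ := exists_surjective_nat (ι × ℕ)
  refine ⟨fun n => Z (e n).1 (e n).2, fun n => h1 _ _, ?_⟩
  rw [he.iUnion_comp fun p => Z p.1 p.2, iUnion_prod']
  simp only [h2]

lemma FSigma.inter {A B : Set X} (hA : FSigma A) (hB : FSigma B) : FSigma (A ∩ B) := by
  obtain ⟨Z, h1, rfl⟩ := hA
  obtain ⟨Z', h2, rfl⟩ := hB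
  simp only [iUnion_inter, inter_iUnion]
  refine FSigma.iUnion fun i => FSigma.iUnion fun j => FClosed.sigma ?_
  convert FClosed.iInter (C := fun n => Nat.casesOn n (Z j) fun _ => Z' i)
    (fun n => by cases n; exacts [h1 j, h2 i])
  ext x
  exact ⟨fun h => mem_iInter.2 fun n => by cases n; exacts [h.1, h.2],
    fun h => ⟨mem_iInter.1 h 0, mem_iInter.1 h 1⟩⟩

lemma FSigma.biInter {A : ℕ → Set X} (h : ∀ i, FSigma (A i)) (n : ℕ) : FSigma (⋂ i < n, A i) := by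
  induction n with
  | zero => simpa using (clopen_f isClopen_univ).sigma
  | succ n ih => rw [biInter_lt_succ]; exact ih.inter (h n)

lemma FClosed.compl {A : Set X} (h : FClosed A) : FSigma Aᶜ := by
  obtain ⟨f, hf, rfl⟩ := h
  refine ⟨fun n => {x | 1 / ((n : ℝ) + 1) ≤ f x}, fun n => ⟨fun x => projIcc 0 1 zero_le_one
    (1 / ((n : ℝ) + 1) - f x), continuous_projIcc.comp (by fun_prop), ?_⟩, ?_⟩
  · ext x
    simp only [mem_ofPred_eq, mem_preimage, mem_singleton_iff]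
    rw [show (0 : unitInterval) = ⟨0, left_mem_Icc.2 zero_le_one⟩ from rfl, projIcc_eq_left zero_lt_one,
      sub_nonpos]
  · ext x
    simp only [mem_compl_iff, mem_preimage, mem_singleton_iff, mem_iUnion, mem_ofPred_eq]
    refine ⟨fun h => (exists_nat_one_div_lt (unitInterval.pos_iff_ne_zero.2 h)).imp fun n h => h.le, ?_⟩
    rintro ⟨n, hn⟩ e
    rw [e] at hn
    exact absurd hn (not_le.2 Nat.one_div_pos_of_nat)

lemma reduce {Z : ℕ → Set X} (hZ : ∀ n, FClosed (Z n)) (hc : ∀ x, ∃ n, x ∈ Z n) (P : ℕ → Prop) :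
    ∃ B : Set X, FSigma B ∧ FSigma Bᶜ ∧ (∀ x ∈ B, ∃ n, P n ∧ x ∈ Z n) ∧
      ∀ y ∉ B, ∃ n, ¬ P n ∧ y ∈ Z n := by
  classical
  have key : ∀ Q : ℕ → Prop, FSigma {x | Q (Nat.find (hc x))} := fun Q => by
    convert FSigma.iUnion (ι := {n // Q n}) fun n => (hZ n).sigma.inter
      (FSigma.biInter (fun i => (hZ i).compl) n)
    ext x
    simp only [mem_ofPred_eq, mem_iUnion, mem_inter_iff, mem_iInter, mem_compl_iff]
    refine ⟨fun h => ⟨⟨_, h⟩, Nat.find_spec (hc x), fun i hi => Nat.find_min (hc x) hi⟩, ?_⟩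
    rintro ⟨⟨n, hn⟩, h⟩
    rwa [(Nat.find_eq_iff (hc x)).2 h]
  exact ⟨_, key P, key fun n => ¬ P n, fun x h => ⟨_, h, Nat.find_spec (hc x)⟩,
    fun x h => ⟨_, h, Nat.find_spec (hc x)⟩⟩

lemma k1_of {B : ℕ → Set X} (h1 : ∀ n, FSigma (B n)) (h2 : ∀ n, FSigma (B n)ᶜ) {φ : X → ℕ → Bool}
    (hφ : ∀ x n, φ x n = true ↔ x ∈ B n) {W : Set (ℕ → Bool)} (hW : IsOpen W) : FSigma (φ ⁻¹' W) := by
  have key : ∀ n b, FSigma {x | φ x n = b} := fun n b => by
    cases b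
    · convert h2 n; ext x; simp [← hφ]
    · convert h1 n; ext x; simp [← hφ]
  convert FSigma.iUnion (ι := {l : List Bool // ∀ t : ℕ → Bool, (∀ i < l.length, t i = l.getD i false) →
    t ∈ W}) fun l => FSigma.biInter (fun i => key i (l.1.getD i false)) l.1.length
  ext x
  simp only [mem_preimage, mem_iUnion, mem_iInter, mem_ofPred_eq]
  refine ⟨fun h => ?_, fun ⟨l, h⟩ => l.2 _ h⟩
  obtain ⟨F, hF⟩ := Pool.Agent.H30.Sigma.box hW h
  obtain ⟨N, hN⟩ := F.bddAbove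
  have e : ∀ i < N + 1, (List.ofFn fun i : Fin (N + 1) => φ x i).getD i false = φ x i := fun i hi => by
    rw [List.getD_eq_getElem _ _ (by simpa using hi), List.getElem_ofFn]
  refine ⟨⟨List.ofFn fun i : Fin (N + 1) => φ x i, fun t ht => hF t fun i hi => ?_⟩, fun i hi => ?_⟩
  · have : i < N + 1 := Nat.lt_succ_of_le (hN hi)
    rw [ht i (by simpa using this), e i this]
  · exact (e i (by simpa using hi)).symm

end general

def Good (m : Set (Set ℚ)) : Prop :=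
  (∀ B ∈ m, Bᶜ ∈ m) ∧ (∀ B ∈ m, ∀ C ∈ m, B ∩ C ∈ m) ∧ ∀ B ∈ m, B.Nonempty → B.Infinite

lemma ex : ∃ m : Set (Set ℚ), Good m ∧ (∀ B, IsClopen B → B ∈ m) ∧ ∀ F S : Set ℚ, F.Nonempty →
    ∃ C ∈ m, (C ∩ F).Nonempty ∧ (C ∩ F ⊆ S ∨ C ∩ F ⊆ Sᶜ) := by
  obtain ⟨m, h0, hm, mx⟩ := zorn_subset_nonempty {m | Good m} (fun c hc ch _ => ⟨⋃₀ c,
    ⟨fun B ⟨a, ha, h⟩ => ⟨a, ha, (hc ha).1 B h⟩, fun B ⟨a, ha, h⟩ C ⟨b, hb, h'⟩ =>
      (ch.total ha hb).elim (fun e => ⟨b, hb, (hc hb).2.1 B (e h) C h'⟩)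
      fun e => ⟨a, ha, (hc ha).2.1 B h C (e h')⟩, fun B ⟨a, ha, h⟩ => (hc ha).2.2 B h⟩,
    fun _ h => subset_sUnion_of_mem h⟩) {B | IsClopen B} ⟨fun B h => h.compl, fun B h C h' => h.inter h',
    fun B h ⟨x, hx⟩ => infinite_of_mem_nhds x (h.isOpen.mem_nhds hx)⟩
  refine ⟨m, hm, h0, fun F S hF => by_contra fun hh => ?_⟩
  push Not at hh
  have un : ∀ B ∈ m, ∀ C ∈ m, B ∪ C ∈ m := fun B a C b => by
    rw [← compl_compl (B ∪ C), compl_union]; exact hm.1 _ (hm.2.1 _ (hm.1 _ a) _ (hm.1 _ b))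
  have av : ∀ B ∈ m, ∀ T : Set ℚ, T.Finite → ∀ x ∈ B, x ∉ T → ∃ C ∈ m, x ∈ C ∧ C ⊆ B \ T := by
    intro B hB T hT x h1 h2
    choose! U u1 u2 u3 using fun t (ht : t ∈ T) => exists_isClopen_of_totally_separated
      (show x ≠ t from fun e => h2 (e ▸ ht))
    exact ⟨B ∩ ⋂ t ∈ T, U t, hm.2.1 _ hB _ (h0 (hT.isClopen_biInter u1)), ⟨h1, mem_iInter₂.2 u2⟩,
      fun y hy => ⟨hy.1, fun h => u3 y h (mem_iInter₂.1 hy.2 y h)⟩⟩
  have i1 : ∀ B ∈ m, (B ∩ (F ∩ S)).Nonempty → (B ∩ (F ∩ S)).Infinite := fun B hB ⟨x, hx⟩ hf => by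
    obtain ⟨y, y1, y2⟩ := not_subset.1 (hh B hB ⟨x, hx.1, hx.2.1⟩).1
    obtain ⟨C, a, b, c⟩ := av B hB _ hf y y1.1 fun h => y2 h.2.2
    obtain ⟨z, z1, z2⟩ := not_subset.1 (hh C a ⟨y, b, y1.2⟩).2
    exact (c z1.1).2 ⟨(c z1.1).1, z1.2, not_not.1 z2⟩
  have i2 : ∀ B ∈ m, (B ∩ (F ∩ S)ᶜ).Nonempty → (B ∩ (F ∩ S)ᶜ).Infinite := fun B hB ⟨x, hx⟩ hf => by
    obtain ⟨y, y1, y2⟩ := (hm.2.2 B hB ⟨x, hx.1⟩).exists_notMem_finite hf
    obtain ⟨C, a, b, c⟩ := av B hB _ hf y y1 y2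
    have d : ∀ z ∈ C, z ∈ F ∩ S := fun z hz => by_contra fun h => (c hz).2 ⟨(c hz).1, h⟩
    exact (hh C a ⟨y, b, (d y b).1⟩).1 fun z hz => (d z hz.1).2
  have g : Good {D | ∃ B ∈ m, ∃ C ∈ m, D = B ∩ (F ∩ S) ∪ C ∩ (F ∩ S)ᶜ} := by
    refine ⟨?_, ?_, ?_⟩
    · rintro _ ⟨B, a, C, b, rfl⟩
      exact ⟨_, hm.1 B a, _, hm.1 C b, by ext x; by_cases h : x ∈ F ∩ S <;> simp [h]⟩
    · rintro _ ⟨B, a, C, b, rfl⟩ _ ⟨B', a', C', b', rfl⟩
      exact ⟨_, hm.2.1 B a B' a', _, hm.2.1 C b C' b', by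
        generalize F ∩ S = D
        ext x; by_cases h : x ∈ D <;> simp [h]⟩
    · rintro _ ⟨B, a, C, b, rfl⟩ ⟨x, h | h⟩
      exacts [(i1 B a ⟨x, h⟩).mono subset_union_left, (i2 C b ⟨x, h⟩).mono subset_union_right]
  have : F ∩ S ∈ m := mx g (fun B hB => ⟨B, hB, B, hB, (inter_union_compl _ _).symm⟩)
    ⟨_, h0 isClopen_univ, _, h0 isClopen_empty, by simp⟩
  obtain ⟨y, y1, y2⟩ := not_subset.1 (hh _ (h0 isClopen_univ) (by simpa)).2
  exact (hh _ this ⟨y, ⟨y1.2, not_not.1 y2⟩, y1.2⟩).1 fun z hz => hz.1.2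

theorem result : ∃ (X : Type) (_ : TopologicalSpace X) (E : Set X), CompactSpace X ∧ T2Space X ∧
    K1StarEmb E ∧ ¬ K1Emb E := by
  classical
  obtain ⟨m, hm, h0, hi⟩ := ex
  let e0 : ℚ → m → Bool := fun x C => decide (x ∈ C.1)
  let X := closure (range e0)
  let e : ℚ → X := fun x => ⟨e0 x, subset_closure ⟨x, rfl⟩⟩
  haveI : CompactSpace X := isCompact_iff_compactSpace.1 isClosed_closure.isCompact
  have ei : Function.Injective e := fun x y h => by_contra fun hh => by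
    obtain ⟨C, a, b, c⟩ := exists_isClopen_of_totally_separated hh
    have := congrFun (congrArg Subtype.val h) ⟨C, h0 C a⟩
    simp only [e, e0, decide_eq_decide] at this
    exact c (this.1 b)
  have hat : ∀ C ∈ m, ∃ T : Set X, IsClopen T ∧ e ⁻¹' T = C := fun C hC =>
    ⟨{y | y.1 ⟨C, hC⟩ = true}, (isClopen_discrete {true}).preimage
      ((continuous_apply (A := fun _ => Bool) _).comp continuous_subtype_val), by ext x; simp [e, e0]⟩
  have amb : ∀ S : Set ℚ, ∃ B : Set X, FSigma B ∧ FSigma Bᶜ ∧ e ⁻¹' B = S := by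
    intro S
    let G : Set X → Prop := fun T => ∃ c : Set (Set X), c.Countable ∧ T ⊆ ⋃₀ c ∧
      ∀ Z ∈ c, FClosed Z ∧ (e ⁻¹' Z ⊆ S ∨ e ⁻¹' Z ⊆ Sᶜ)
    let F : Set ℚ := {x | ¬ ∃ T, IsClopen T ∧ e x ∈ T ∧ G T}
    obtain ⟨en, hen⟩ := exists_surjective_nat ℚ
    have : ∀ n, ∃ T, IsClopen T ∧ G T ∧ (en n ∉ F → e (en n) ∈ T) := fun n => by
      by_cases h : en n ∈ F
      · exact ⟨∅, isClopen_empty, ⟨∅, by simp⟩, fun h' => absurd h h'⟩
      · exact (not_not.1 h).imp fun T h => ⟨h.1, h.2.2, fun _ => h.2.1⟩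
    choose T t1 t2 t3 using this
    choose c c1 c2 c3 using t2
    have key : ∀ U, IsClopen U → (e ⁻¹' U ∩ F ⊆ S ∨ e ⁻¹' U ∩ F ⊆ Sᶜ) → G U := fun U hU h => by
      refine ⟨insert (⋂ n, U ∩ (T n)ᶜ) (⋃ n, c n), (countable_iUnion c1).insert _, fun y hy => ?_, ?_⟩
      · by_cases hy' : y ∈ ⋂ n, U ∩ (T n)ᶜ
        · exact ⟨_, Or.inl rfl, hy'⟩
        · obtain ⟨n, hn⟩ : ∃ n, y ∈ T n := by simpa [hy] using hy'
          obtain ⟨Z, a, b⟩ := c2 n hn
          exact ⟨Z, Or.inr (mem_iUnion.2 ⟨n, a⟩), b⟩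
      · rintro Z (rfl | hZ)
        · have s : e ⁻¹' (⋂ n, U ∩ (T n)ᶜ) ⊆ e ⁻¹' U ∩ F := fun x hx => by
            obtain ⟨n, rfl⟩ := hen x
            exact ⟨(mem_iInter.1 hx n).1, by_contra fun h => (mem_iInter.1 hx n).2 (t3 n h)⟩
          exact ⟨FClosed.iInter fun n => clopen_f (hU.inter (t1 n).compl), h.imp s.trans s.trans⟩
        · exact (mem_iUnion.1 hZ).elim fun n h => c3 n Z h
    have hF : F = ∅ := by_contra fun h => by
      obtain ⟨C, a, ⟨x, x1, x2⟩, b⟩ := hi F S (nonempty_iff_ne_empty.2 h)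
      obtain ⟨U, u, rfl⟩ := hat C a
      exact x2 ⟨U, u, x1, key U u b⟩
    obtain ⟨d, d1, d2, d3⟩ := key univ isClopen_univ (by simp [hF])
    obtain ⟨Z, rfl⟩ := d1.exists_eq_range ((d2 (mem_univ (e 0))).imp fun _ h => h.1)
    obtain ⟨B, b1, b2, b3, b4⟩ := reduce (fun n => (d3 _ ⟨n, rfl⟩).1) (fun y => by
      simpa using d2 (mem_univ y)) fun n => e ⁻¹' Z n ⊆ S
    refine ⟨B, b1, b2, Subset.antisymm (fun x hx => (b3 _ hx).elim fun n h => h.1 h.2)
      fun x hx => by_contra fun h => (b4 _ h).elim fun n h => ((d3 _ ⟨n, rfl⟩).2.resolve_left h.1) h.2 hx⟩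
  refine ⟨X, inferInstance, range e, inferInstance, inferInstance, fun f _ ⟨M, hM⟩ => ?_, fun h => ?_⟩
  · haveI : Nonempty (Icc (-M) M) := ⟨⟨_, abs_le.1 (hM ⟨_, 0, rfl⟩)⟩⟩
    obtain ⟨ψ, p1, p2⟩ := exists_nat_bool_continuous_surjective_of_compact (Icc (-M) M)
    choose s hs using fun x => p2 ⟨_, abs_le.1 (hM ⟨_, x, rfl⟩)⟩
    choose B b1 b2 b3 using fun n => amb {x | s x n = true}
    refine ⟨fun y => (ψ fun n => decide (y ∈ B n)).1, fun V hV => k1_of b1 b2 (fun x n => by simp)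
      (hV.preimage (continuous_subtype_val.comp p1)), ⟨M, fun y => abs_le.2 (ψ _).2⟩, ?_⟩
    rintro ⟨_, x, rfl⟩
    have : (fun n => decide (e x ∈ B n)) = s x := funext fun n => by
      have := Set.ext_iff.1 (b3 n) x
      simp only [mem_preimage, mem_ofPred_eq] at this
      simp [this]
    simp only [this, hs]
  · obtain ⟨g, g1, g2⟩ := h (fun y => Encodable.encode y.2.choose) fun V _ => by
      obtain ⟨B, ⟨Z, z1, rfl⟩, -, b⟩ := amb {x | (Encodable.encode x : ℝ) ∈ V}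
      refine ⟨fun n => Subtype.val ⁻¹' Z n, fun n => (z1 n).elim fun f h =>
        ⟨f ∘ Subtype.val, h.1.comp continuous_subtype_val, congrArg (fun S => Subtype.val ⁻¹' S) h.2⟩, ?_⟩
      ext y
      have := (Set.ext_iff.1 b y.2.choose).symm
      rw [mem_preimage, y.2.choose_spec] at this
      rw [← preimage_iUnion]
      exact this
    choose Z z1 z2 using fun n : ℕ => g1 _ (isOpen_Iio (a := (n : ℝ)))
    haveI : Nonempty X := ⟨e 0⟩
    obtain ⟨⟨n, k⟩, y, hy⟩ := nonempty_interior_of_iUnion_of_closed (f := fun p : ℕ × ℕ => Z p.1 p.2)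
      (fun p => (z1 _ _).isClosed) (eq_univ_of_forall fun y => by
        obtain ⟨n, hn⟩ := exists_nat_gt (g y)
        obtain ⟨k, hk⟩ := mem_iUnion.1 ((z2 n).subset hn)
        exact mem_iUnion.2 ⟨(n, k), hk⟩)
    obtain ⟨O, o1, o2⟩ := isOpen_induced_iff.1 (isOpen_interior (s := Z n k))
    obtain ⟨_, x1, x, rfl⟩ := mem_closure_iff.1 y.2 O o1 (show y ∈ Subtype.val ⁻¹' O from o2 ▸ hy)
    obtain ⟨F, hF⟩ := Pool.Agent.H30.Sigma.box o1 x1
    have : ∀ F : Finset m, {z | ∀ i ∈ F, e0 z i = e0 x i} ∈ m := fun F => by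
      induction F using Finset.induction_on with
      | empty => simpa using h0 _ isClopen_univ
      | insert a s _ ih =>
        have : {z | e0 z a = e0 x a} ∈ m := by
          by_cases hx : x ∈ a.1
          · convert a.2; ext z; simp [e0, hx]
          · convert hm.1 _ a.2; ext z; simp [e0, hx]
        convert hm.2.1 _ this _ ih
        ext z; simp
    refine hm.2.2 _ (this F) ⟨x, fun _ _ => rfl⟩ (((finite_Iio n).preimage
      Encodable.encode_injective.injOn).subset fun z hz => ?_)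
    have h1 : e z ∈ interior (Z n k) := o2 ▸ hF _ hz
    have h2 : e z ∈ g ⁻¹' Iio (n : ℝ) := z2 n ▸ mem_iUnion.2 ⟨k, interior_subset h1⟩
    have h3 := g2 ⟨e z, z, rfl⟩
    rw [ei (Exists.choose_spec (⟨z, rfl⟩ : e z ∈ range e))] at h3
    rw [mem_preimage, mem_Iio, h3] at h2
    exact_mod_cast h2

end Pool.Agent.Results.MP_b12a75_gt.Irres
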